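import Pool.Agent.Helper31.CY.St1

/-!
# Project CY, module TC1: contingent cones and charts
-/

set_option autoImplicit false

open Set Topology Filter Asymptotics

namespace Pool.Agent.Helper54.CY

open Pool.Agent.Helper31.CY

private theorem lim_aux {E F : Type} [NormedAddCommGroup E] [NormedSpace ℝ E]
    [NormedAddCommGroup F] [NormedSpace ℝ F] {f : E → F} {L : E →L[ℝ] F} {p : E}
    (hf : HasFDerivAt f L p) {x : ℕ → E} {t : ℕ → ℝ} (hx : Tendsto x atTop (𝓝 p)) {v : E}
    (hv : Tendsto (fun n => t n • (x n - p)) atTop (𝓝 v)) :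
    Tendsto (fun n => t n • (f (x n) - f p)) atTop (𝓝 (L v)) := by
  have h1 : (fun x' => f x' - f p - L (x' - p)) =o[𝓝 p] fun x' => x' - p := hf.isLittleO
  have h2 := h1.comp_tendsto hx
  have h3 := (isBigO_refl t atTop).smul_isLittleO h2
  have h4 : (fun n => t n • (f (x n) - f p - L (x n - p))) =o[atTop] (fun _ : ℕ => (1 : ℝ)) :=
    h3.trans_isBigO (hv.isBigO_one ℝ)
  have h5 := (isLittleO_one_iff ℝ).1 h4
  have h6 : Tendsto (fun n => L (t n • (x n - p))) atTop (𝓝 (L v)) := (L.continuous.tendsto v).comp hv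
  have h7 := h5.add h6
  rw [zero_add] at h7
  refine h7.congr fun n => ?_
  rw [L.map_smul, ← smul_add]
  congr 1
  abel

theorem hTC1 : StTC1 := by
  intro E F _ _ _ _ _ _ S p Φ A M U hΦ hp hU hS hM hcone v
  constructor
  · rintro ⟨x, t, hx, ht, hxp, hv⟩
    have h1 := lim_aux hΦ.hasFDerivAt hxp hv
    rw [hp] at h1
    refine hM.mem_of_tendsto h1 ?_
    filter_upwards [hxp.eventually hU] with n hn
    rw [sub_zero]
    exact hcone _ (ht n).le _ ((hS _ hn).1 (hx n))
  · intro hv
    have hg := hΦ.to_localInverse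
    have hgp := hΦ.localInverse_apply_image
    have hr := hΦ.eventually_right_inverse
    rw [hp] at hg hgp hr
    -- the points
    have hy : Tendsto (fun n : ℕ => (1 / ((n : ℝ) + 1)) • (A v)) atTop (𝓝 (0 : F)) := by
      have := (tendsto_one_div_add_atTop_nhds_zero_nat (𝕜 := ℝ)).smul_const (A v)
      rwa [zero_smul] at this
    have hgy : Tendsto (fun n : ℕ => hΦ.localInverse Φ A p ((1 / ((n : ℝ) + 1)) • (A v))) atTop (𝓝 p) := by
      have := hg.continuousAt.tendsto.comp hy
      rwa [hgp] at this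
    have hlim : Tendsto (fun n : ℕ => ((n : ℝ) + 1) •
        (hΦ.localInverse Φ A p ((1 / ((n : ℝ) + 1)) • (A v)) - p)) atTop (𝓝 v) := by
      have h1 : Tendsto (fun n : ℕ => ((n : ℝ) + 1) • ((1 / ((n : ℝ) + 1)) • (A v) - 0)) atTop (𝓝 (A v)) := by
        refine tendsto_const_nhds.congr fun n => ?_
        have : ((n : ℝ) + 1) ≠ 0 := by positivity
        rw [sub_zero, smul_smul, mul_one_div_cancel this, one_smul]
      have h2 := lim_aux hg.hasFDerivAt hy h1
      rw [hgp] at h2
      have h3 : ((A.symm : F ≃L[ℝ] E) : F →L[ℝ] E) (A v) = v := A.symm_apply_apply v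
      rwa [h3] at h2
    have hev : ∀ᶠ n : ℕ in atTop, hΦ.localInverse Φ A p ((1 / ((n : ℝ) + 1)) • (A v)) ∈ S := by
      filter_upwards [hgy.eventually hU, hy.eventually hr] with n hn1 hn2
      rw [hS _ hn1, hn2]
      exact hcone _ (by positivity) _ hv
    obtain ⟨N, hN⟩ := eventually_atTop.1 hev
    have hsh : Tendsto (fun n : ℕ => n + N) atTop atTop := tendsto_add_atTop_nat N
    exact ⟨fun n => hΦ.localInverse Φ A p ((1 / (((n + N : ℕ) : ℝ) + 1)) • (A v)),
      fun n => ((n + N : ℕ) : ℝ) + 1, fun n => hN _ (by omega), fun n => by positivity,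
      hgy.comp hsh, hlim.comp hsh⟩

end Pool.Agent.Helper54.CY
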